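import Mathlib
import Pool.Agent.V1195.CascPS

/-!
# MP_60133c_an: all zeros of the coefficients of `1/(Q(t) + z t^r)` are positive

`Q` is a non-constant real polynomial with `Q(0) > 0` all of whose complex zeros are positive real
numbers.  Write `Q = Q(0) ∏ (1 - γ_l t)`, `γ_l > 0`.  Removing the factors `1 - γ_l t` one at a
time gives a cascade of sequences; at a fixed point `ω = -z/Q(0)` of the upper half plane the
current values of the cascade are non-negative combinations staying, in order, inside the cone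
spanned by a vector `a` and `ω a` (this is interlacing in disguise), so `P_m(z) ≠ 0`.
-/

open Polynomial

namespace Pool.Agent.Results.MP_60133c_an.AllZerosPositive

open Pool.Agent.V1195.Casc

/-- The denominator `Q(t) + z t^r`, a power series in `t` over the field `ℝ(z)`. -/
noncomputable def Den (Q : ℝ[X]) (r : ℕ) : PowerSeries (RatFunc ℝ) :=
  ((Q.map (algebraMap ℝ (RatFunc ℝ)) : (RatFunc ℝ)[X]) : PowerSeries (RatFunc ℝ)) +
    PowerSeries.C RatFunc.X * PowerSeries.X ^ r

/-- `P_m(z)`: the coefficient of `t^m` in `1/(Q(t) + z t^r)`. -/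
noncomputable def P (Q : ℝ[X]) (r m : ℕ) : RatFunc ℝ := PowerSeries.coeff m (Den Q r)⁻¹

theorem factor (n : ℕ) : ∀ Q : ℝ[X], Q.natDegree = n → Q.eval 0 ≠ 0 →
    (∀ w : ℂ, aeval w Q = 0 → w.im = 0 ∧ 0 < w.re) →
    ∃ γ : ℕ → ℝ, (∀ l, 0 < γ l) ∧
      Q = C (Q.eval 0) * ∏ l ∈ Finset.range n, (1 - C (γ l) * X) := by
  induction n with
  | zero =>
    intro Q hQ h0 _
    refine ⟨fun _ => 1, fun _ => one_pos, ?_⟩
    rw [Finset.range_zero, Finset.prod_empty, mul_one]
    conv_lhs => rw [eq_C_of_natDegree_eq_zero hQ]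
    rw [coeff_zero_eq_eval_zero]
  | succ n ih =>
    intro Q hQ h0 hr
    have hQ0 : Q ≠ 0 := by
      rintro rfl
      simp at h0
    have hdeg : Q.degree ≠ 0 := by
      rw [degree_eq_natDegree hQ0, hQ]
      exact_mod_cast Nat.succ_ne_zero n
    obtain ⟨w, hw⟩ := IsAlgClosed.exists_aeval_eq_zero ℂ Q hdeg
    obtain ⟨him, hre⟩ := hr w hw
    have hw' : w = ((w.re : ℝ) : ℂ) := by apply Complex.ext <;> simp [him]
    set a := w.re with ha
    have hroot : Q.IsRoot a := by
      rw [IsRoot.def]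
      rw [hw'] at hw
      have := aeval_algebraMap_apply ℂ a Q
      have h3 : aeval ((a : ℝ) : ℂ) Q = ((Q.eval a : ℝ) : ℂ) := by simpa using this
      rw [h3] at hw
      exact_mod_cast hw
    obtain ⟨R, hR⟩ := dvd_iff_isRoot.2 hroot
    have hR0 : R ≠ 0 := by
      rintro rfl
      rw [mul_zero] at hR
      exact hQ0 hR
    have hRdeg : R.natDegree = n := by
      have := congrArg natDegree hR
      rw [natDegree_mul (X_sub_C_ne_zero a) hR0, natDegree_X_sub_C, hQ] at this
      omega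
    have heval : Q.eval 0 = -a * R.eval 0 := by
      rw [hR]; simp
    have hRe : R.eval 0 ≠ 0 := by
      intro h
      rw [h, mul_zero] at heval
      exact h0 heval
    obtain ⟨γ, hγ, hprod⟩ := ih R hRdeg hRe (by
      intro w hw
      apply hr w
      rw [hR, map_mul, hw, mul_zero])
    refine ⟨fun l => if l < n then γ l else a⁻¹, ?_, ?_⟩
    · intro l
      dsimp only
      split_ifs
      · exact hγ l
      · exact inv_pos.2 hre
    · rw [Finset.prod_range_succ]
      have h1 : ∏ l ∈ Finset.range n, ((1 : ℝ[X]) - C (if l < n then γ l else a⁻¹) * X) =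
          ∏ l ∈ Finset.range n, (1 - C (γ l) * X) := by
        apply Finset.prod_congr rfl
        intro l hl
        rw [if_pos (Finset.mem_range.1 hl)]
      rw [h1]
      dsimp only
      rw [if_neg (lt_irrefl n), heval]
      conv_lhs => rw [hR, hprod]
      have h2 : (X - C a : ℝ[X]) = C (-a) * (1 - C a⁻¹ * X) := by
        rw [mul_sub, mul_one, ← mul_assoc, ← C_mul]
        have : -a * a⁻¹ = -1 := by
          field_simp
        rw [this]
        simp only [map_neg, map_one]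
        ring
      rw [h2, C_mul]
      ring

theorem inv_of_mul_one {K : Type*} [Field K] {M N : PowerSeries K} (h : M * N = 1) : M⁻¹ = N := by
  have hc : PowerSeries.constantCoeff M ≠ 0 := by
    intro h0
    have := congrArg PowerSeries.constantCoeff h
    rw [map_mul, h0, zero_mul, map_one] at this
    exact zero_ne_one this
  calc M⁻¹ = M⁻¹ * (M * N) := by rw [h, mul_one]
    _ = (M⁻¹ * M) * N := by ring
    _ = N := by rw [PowerSeries.inv_mul_cancel M hc, one_mul]

/-- `ω = -z/q` as a polynomial in `z` -/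
noncomputable def om (q : ℝ) : ℝ[X] := C (-q⁻¹) * X

theorem Den_eq (Q : ℝ[X]) (r : ℕ) (q : ℝ) (hq : q ≠ 0) (γ : ℕ → ℝ) (n : ℕ)
    (h : Q = C q * ∏ l ∈ Finset.range n, (1 - C (γ l) * X)) :
    Den Q r = PowerSeries.C (algebraMap ℝ (RatFunc ℝ) q) *
      ((∏ i ∈ Finset.range n, (1 - PowerSeries.C (algebraMap ℝ (RatFunc ℝ) (γ i)) * PowerSeries.X)) -
        PowerSeries.C (algebraMap ℝ[X] (RatFunc ℝ) (om q)) * PowerSeries.X ^ r) := by
  have h1 : ((Q.map (algebraMap ℝ (RatFunc ℝ)) : (RatFunc ℝ)[X]) : PowerSeries (RatFunc ℝ)) =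
      PowerSeries.C (algebraMap ℝ (RatFunc ℝ) q) *
      (∏ i ∈ Finset.range n, (1 - PowerSeries.C (algebraMap ℝ (RatFunc ℝ) (γ i)) * PowerSeries.X)) := by
    rw [← Polynomial.coeToPowerSeries.ringHom_apply, h, Polynomial.map_mul, Polynomial.map_prod,
      map_mul, map_prod]
    congr 1
    · simp
    · apply Finset.prod_congr rfl
      intro i _
      simp
  have h2 : algebraMap ℝ (RatFunc ℝ) q * algebraMap ℝ[X] (RatFunc ℝ) (om q) = -RatFunc.X := by
    rw [om, map_mul, RatFunc.algebraMap_C, RatFunc.algebraMap_X]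
    have h3 : algebraMap ℝ (RatFunc ℝ) q = RatFunc.C q := rfl
    rw [h3, ← mul_assoc, ← map_mul]
    have : q * -q⁻¹ = -1 := by field_simp
    rw [this]
    simp
  rw [Den, h1, mul_sub, ← mul_assoc (PowerSeries.C _) (PowerSeries.C _), ← map_mul, h2]
  simp [sub_neg_eq_add]

theorem om_ne (q : ℝ) : (1 : ℝ[X]) - om q ≠ 0 := by
  intro h
  have := congrArg (fun p => p.coeff 0) h
  simp [om] at this

theorem aeval_om (q : ℝ) (w : ℂ) : aeval w (om q) = ((-q⁻¹ : ℝ) : ℂ) * w := by
  simp [om]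

/-- the representation of `P_m` -/
theorem rep (Q : ℝ[X]) (hdeg : 0 < Q.natDegree) (h0 : 0 < Q.eval 0)
    (hr : ∀ w : ℂ, aeval w Q = 0 → w.im = 0 ∧ 0 < w.re) (r m : ℕ) :
    Den Q r * (Den Q r)⁻¹ = 1 ∧
    ∃ a b : ℝ[X], b ≠ 0 ∧ (1 ≤ r → b = 1) ∧
      P Q r m = algebraMap ℝ[X] (RatFunc ℝ) a / algebraMap ℝ[X] (RatFunc ℝ) b ∧
      ∀ w : ℂ, aeval w a = 0 → w.im = 0 ∧ 0 < w.re := by
  obtain ⟨γ, hγ, hQ⟩ := factor Q.natDegree Q rfl h0.ne' hr
  set q := Q.eval 0 with hq
  set n := Q.natDegree with hn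
  have hq' : algebraMap ℝ (RatFunc ℝ) q * algebraMap ℝ (RatFunc ℝ) q⁻¹ = 1 := by
    rw [← map_mul, mul_inv_cancel₀ h0.ne', map_one]
  have hfin : ∀ (w : ℂ) (x : ℂ), aeval w (om q) = x → ¬ (w.im = 0 ∧ 0 < w.re) →
      x.im ≠ 0 ∨ 0 ≤ x.re := by
    intro w x hx hw
    rw [aeval_om] at hx
    have hqi : 0 < q⁻¹ := inv_pos.2 h0
    by_cases him : w.im = 0
    · right
      have hre : w.re ≤ 0 := by
        by_contra hc
        exact hw ⟨him, by linarith [not_le.1 hc]⟩
      rw [← hx, Complex.re_ofReal_mul]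
      nlinarith
    · left
      rw [← hx, Complex.im_ofReal_mul]
      exact mul_ne_zero (neg_ne_zero.2 hqi.ne') him
  rcases Nat.eq_zero_or_pos r with rfl | hrpos
  · have hω : (1 : RatFunc ℝ) - algebraMap ℝ[X] (RatFunc ℝ) (om q) ≠ 0 := by
      rw [← map_one (algebraMap ℝ[X] (RatFunc ℝ)), ← map_sub]
      intro h
      exact om_ne q ((map_eq_zero_iff _ (RatFunc.algebraMap_injective ℝ)).1 h)
    have hid := F_identity γ n (algebraMap ℝ[X] (RatFunc ℝ) (om q)) hω
    have hmul : Den Q 0 * (PowerSeries.C (algebraMap ℝ (RatFunc ℝ) q⁻¹) *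
        S γ n (algebraMap ℝ[X] (RatFunc ℝ) (om q)) 0) = 1 := by
      rw [Den_eq Q 0 q h0.ne' γ n hQ]
      rw [mul_mul_mul_comm, ← map_mul, hq', map_one, one_mul]
      exact hid
    have hinv := inv_of_mul_one hmul
    refine ⟨by rw [hinv]; exact hmul, C q⁻¹ * F γ n (om q) m 0, (1 - om q) ^ (m + 1),
      pow_ne_zero _ (om_ne q), fun h => absurd h (by omega), ?_, ?_⟩
    · rw [P, hinv, PowerSeries.coeff_C_mul, S, PowerSeries.coeff_mk]
      have h1 := map_F (IsScalarTower.toAlgHom ℝ ℝ[X] (RatFunc ℝ)) γ n (om q) m 0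
      rw [IsScalarTower.coe_toAlgHom'] at h1
      rw [← h1, map_mul, map_pow, map_sub, map_one, RatFunc.algebraMap_C]
      have h3 : algebraMap ℝ (RatFunc ℝ) q⁻¹ = RatFunc.C q⁻¹ := rfl
      rw [h3, inv_pow]
      field_simp
    · intro w hw
      by_contra hc
      rw [map_mul, aeval_C] at hw
      have h1 := map_F (Polynomial.aeval w : ℝ[X] →ₐ[ℝ] ℂ) γ n (om q) m 0
      rw [h1] at hw
      rcases mul_eq_zero.1 hw with h | h
      · have : q⁻¹ = 0 := by simpa using h
        exact (inv_pos.2 h0).ne' this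
      · exact F_ne hdeg (fun l _ => hγ l) (hfin w _ rfl hc) m h
  · obtain ⟨s, rfl⟩ : ∃ s, r = s + 1 := ⟨r - 1, by omega⟩
    have hid := E_identity γ n s (algebraMap ℝ[X] (RatFunc ℝ) (om q))
    have hmul : Den Q (s + 1) * (PowerSeries.C (algebraMap ℝ (RatFunc ℝ) q⁻¹) *
        T γ n s (algebraMap ℝ[X] (RatFunc ℝ) (om q)) s) = 1 := by
      rw [Den_eq Q (s + 1) q h0.ne' γ n hQ]
      rw [mul_mul_mul_comm, ← map_mul, hq', map_one, one_mul]
      exact hid
    have hinv := inv_of_mul_one hmul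
    refine ⟨by rw [hinv]; exact hmul, C q⁻¹ * E γ n s (om q) m s, 1, one_ne_zero,
      fun _ => rfl, ?_, ?_⟩
    · rw [P, hinv, PowerSeries.coeff_C_mul, T, PowerSeries.coeff_mk]
      have h1 := map_E (IsScalarTower.toAlgHom ℝ ℝ[X] (RatFunc ℝ)) γ n s (om q) m s
      rw [IsScalarTower.coe_toAlgHom'] at h1
      rw [← h1, map_mul, map_one, RatFunc.algebraMap_C, div_one]
      have h3 : algebraMap ℝ (RatFunc ℝ) q⁻¹ = RatFunc.C q⁻¹ := rfl
      rw [h3]
    · intro w hw
      by_contra hc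
      rw [map_mul, aeval_C] at hw
      have h1 := map_E (Polynomial.aeval w : ℝ[X] →ₐ[ℝ] ℂ) γ n s (om q) m s
      rw [h1] at hw
      rcases mul_eq_zero.1 hw with h | h
      · have : q⁻¹ = 0 := by simpa using h
        exact (inv_pos.2 h0).ne' this
      · exact E_ne hdeg (fun l _ => hγ l) (hfin w _ rfl hc) m h

/-- Let `Q` be a non-constant real polynomial with `Q(0) > 0` whose complex zeros are all positive
real numbers, and let `r, m ≥ 0`.  Then `Q(t) + z t^r` is invertible as a power series in `t` over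
`ℝ(z)`, its inverse has non-zero coefficients `P_m(z)`, which are polynomials when `r ≥ 1`, and
every complex zero of (the reduced numerator of) `P_m` is a positive real number. -/
theorem result (Q : ℝ[X]) (hdeg : 0 < Q.natDegree) (h0 : 0 < Q.eval 0)
    (hr : ∀ w : ℂ, aeval w Q = 0 → w.im = 0 ∧ 0 < w.re) (r m : ℕ) :
    Den Q r * (Den Q r)⁻¹ = 1 ∧ P Q r m ≠ 0 ∧
    (1 ≤ r → ∃ p : ℝ[X], P Q r m = algebraMap ℝ[X] (RatFunc ℝ) p) ∧
    ∀ w : ℂ, aeval w (P Q r m).num = 0 → w.im = 0 ∧ 0 < w.re := by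
  obtain ⟨h1, a, b, hb, hb1, hP, hz⟩ := rep Q hdeg h0 hr r m
  have hnum : ∀ w : ℂ, aeval w (P Q r m).num = 0 → w.im = 0 ∧ 0 < w.re := by
    intro w hw
    apply hz w
    have hd : (P Q r m).num ∣ a := by
      rw [hP]
      exact RatFunc.num_div_dvd a hb
    obtain ⟨c, hc⟩ := hd
    rw [hc, map_mul, hw, zero_mul]
  refine ⟨h1, ?_, ?_, hnum⟩
  · intro h
    have := hnum Complex.I (by rw [h]; simp)
    simp at this
  · intro hr1
    refine ⟨a, ?_⟩
    rw [hP, hb1 hr1, map_one, div_one]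

end Pool.Agent.Results.MP_60133c_an.AllZerosPositive
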